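import Mathlib

/-!
# MP_cb9b3e_co : the achievement game GEN(G), definitions and basic lemmas
-/

set_option autoImplicit false

namespace Pool.Agent.Lib.MP_cb9b3e_co

open Finset

open Classical in
/-- The nim-number of the position `P` of the achievement game `GEN(G)`: `0` if `P` generates
`G`, and otherwise the least natural number which is not the nim-number of one of the positions
`P ∪ {g}`, `g ∉ P`. -/
noncomputable def nim {G : Type} [Group G] [Fintype G] [DecidableEq G] (P : Finset G) : ℕ :=
  if Subgroup.closure (P : Set G) = ⊤ then 0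
  else sInf {n : ℕ | ∀ g, ∀ _ : g ∉ P, nim (insert g P) ≠ n}
termination_by Fintype.card G - P.card
decreasing_by
  rename_i h
  have h1 : (insert g P).card = P.card + 1 := card_insert_of_notMem h
  have h2 : (insert g P).card ≤ Fintype.card G := card_le_univ _
  omega

/-- The nim-number of the game `GEN(G)`. -/
noncomputable def nimGEN (G : Type) [Group G] [Fintype G] [DecidableEq G] : ℕ :=
  nim (∅ : Finset G)

set_option linter.unusedSectionVars false

variable {G : Type} [Group G] [Fintype G] [DecidableEq G]

/-- The subgroup generated by a position. -/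
def cl (P : Finset G) : Subgroup G := Subgroup.closure (P : Set G)

theorem cl_insert (g : G) (P : Finset G) : cl (insert g P) = cl P ⊔ Subgroup.zpowers g := by
  unfold cl
  rw [coe_insert, Set.insert_eq, Subgroup.closure_union, ← Subgroup.zpowers_eq_closure, sup_comm]

theorem cl_le_insert (g : G) (P : Finset G) : cl P ≤ cl (insert g P) := by
  rw [cl_insert]; exact le_sup_left

theorem mem_cl {g : G} {P : Finset G} (h : g ∈ P) : g ∈ cl P :=
  Subgroup.subset_closure (mem_coe.2 h)

theorem cl_insert_of_mem {g : G} {P : Finset G} (h : g ∈ cl P) : cl (insert g P) = cl P := by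
  rw [cl_insert, sup_eq_left, Subgroup.zpowers_le]
  exact h

theorem nim_top {P : Finset G} (h : cl P = ⊤) : nim P = 0 := by
  have h' : Subgroup.closure (P : Set G) = ⊤ := h
  rw [nim, if_pos h']

theorem nim_set_nonempty (P : Finset G) :
    {n : ℕ | ∀ g, ∀ _ : g ∉ P, nim (insert g P) ≠ n}.Nonempty := by
  refine ⟨(∑ g : G, nim (insert g P)) + 1, fun g _ => ?_⟩
  have : nim (insert g P) ≤ ∑ g : G, nim (insert g P) :=
    single_le_sum (f := fun g => nim (insert g P)) (fun _ _ => Nat.zero_le _) (mem_univ g)
  omega

theorem nim_ne {P : Finset G} (h : cl P ≠ ⊤) {g : G} (hg : g ∉ P) :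
    nim (insert g P) ≠ nim P := by
  have h' : ¬ Subgroup.closure (P : Set G) = ⊤ := h
  have h1 : nim P = sInf {n : ℕ | ∀ g, ∀ _ : g ∉ P, nim (insert g P) ≠ n} := by
    rw [nim, if_neg h']
  have h2 := Nat.sInf_mem (nim_set_nonempty P)
  rw [← h1] at h2
  exact h2 g hg

theorem nim_le {P : Finset G} (h : cl P ≠ ⊤) {v : ℕ}
    (hv : ∀ g, g ∉ P → nim (insert g P) ≠ v) : nim P ≤ v := by
  have h' : ¬ Subgroup.closure (P : Set G) = ⊤ := h
  rw [nim, if_neg h']
  exact Nat.sInf_le hv

theorem nim_eq {P : Finset G} (h : cl P ≠ ⊤) {v : ℕ}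
    (hv : ∀ g, g ∉ P → nim (insert g P) ≠ v)
    (hw : ∀ w < v, ∃ g, g ∉ P ∧ nim (insert g P) = w) : nim P = v := by
  refine le_antisymm (nim_le h hv) ?_
  by_contra hlt
  obtain ⟨g, hg, he⟩ := hw _ (not_le.1 hlt)
  exact nim_ne h hg he

/-- Strong induction on positions. -/
theorem pos_induction {C : Finset G → Prop}
    (h : ∀ P : Finset G, (∀ g, g ∉ P → C (insert g P)) → C P) (P : Finset G) : C P := by
  induction hn : Fintype.card G - P.card using Nat.strong_induction_on generalizing P with
  | _ n ih =>
    refine h P fun g hg => ih _ ?_ _ rfl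
    have h1 : (insert g P).card = P.card + 1 := card_insert_of_notMem hg
    have h2 : (insert g P).card ≤ Fintype.card G := card_le_univ _
    omega

theorem even_insert {P : Finset G} {g : G} (hg : g ∉ P) :
    Even (insert g P).card ↔ ¬ Even P.card := by
  rw [card_insert_of_notMem hg, Nat.even_add_one]

/-- A subgroup without involutions has odd order. -/
theorem odd_of_no_inv (H : Subgroup G) (h : ∀ t : G, orderOf t = 2 → t ∉ H) :
    ¬ Even (Nat.card H) := by
  intro he
  have : Fact (Nat.Prime 2) := ⟨Nat.prime_two⟩
  obtain ⟨x, hx⟩ := exists_prime_orderOf_dvd_card' 2 (even_iff_two_dvd.1 he)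
  exact h x (by rw [Subgroup.orderOf_coe]; exact hx) x.2

/-- A subgroup with an involution has even order. -/
theorem even_of_inv (H : Subgroup G) {t : G} (ht : orderOf t = 2) (htH : t ∈ H) :
    Even (Nat.card H) := by
  rw [even_iff_two_dvd, ← ht]
  exact Subgroup.orderOf_dvd_natCard H htH

/-- If the parities of `|P|` and of the subgroup generated by `P` differ, there is a further
element in this subgroup. -/
theorem exists_mem_cl {P : Finset G} (h : ¬ (Even P.card ↔ Even (Nat.card (cl P)))) :
    ∃ g, g ∉ P ∧ g ∈ cl P := by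
  by_contra hc
  push Not at hc
  apply h
  have : ((cl P : Subgroup G) : Set G) = (P : Set G) := by
    apply Set.Subset.antisymm
    · intro g hg
      by_contra hn
      exact hc g hn hg
    · exact Subgroup.subset_closure
  have h2 : Nat.card (cl P) = P.card := by
    rw [← SetLike.coe_sort_coe, Nat.card_coe_set_eq, this, Set.ncard_coe_finset]
  rw [h2]

end Pool.Agent.Lib.MP_cb9b3e_co
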