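import Mathlib

/-!
# MP_cb9b3e_co : Gaschuetz' lemma for pairs
-/

set_option autoImplicit false

namespace Pool.Agent.Lib.MP_cb9b3e_co

open Finset Subgroup

section

variable {G : Type} [Group G] [Finite G] (N : Subgroup G) [N.Normal]

/-- In a supplement `H` of `N`, every coset of `N` has `|H ∩ N|` elements. -/
theorem card_coset_eq [Fintype N] (H : Subgroup G) (h : H ⊔ N = ⊤) (x : G)
    [DecidablePred fun n : N => x * (n : G) ∈ H] [DecidablePred fun n : N => (n : G) ∈ H] :
    (univ.filter fun n : N => x * (n : G) ∈ H).card =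
      (univ.filter fun n : N => (n : G) ∈ H).card := by
  have hx : x ∈ H ⊔ N := by rw [h]; exact mem_top x
  obtain ⟨y, hy, z, hz, rfl⟩ := (mem_sup_of_normal_right).1 hx
  refine card_bij (fun n _ => (⟨z, hz⟩ : N) * n) ?_ ?_ ?_
  · intro n hn
    rw [mem_filter] at hn ⊢
    refine ⟨mem_univ _, ?_⟩
    have h1 := hn.2
    rw [mul_assoc, Subgroup.mul_mem_cancel_left H hy] at h1
    exact h1
  · intro n _ m _ hnm
    exact mul_left_cancel hnm
  · intro n hn
    rw [mem_filter] at hn
    refine ⟨(⟨z, hz⟩ : N)⁻¹ * n, ?_, by rw [mul_inv_cancel_left]⟩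
    rw [mem_filter]
    refine ⟨mem_univ _, ?_⟩
    rw [mul_assoc, Subgroup.mul_mem_cancel_left H hy]
    have h1 := hn.2
    simpa using h1

open Classical in
/-- The number of pairs in the cosets `xN, yN` which generate the subgroup `H`. -/
noncomputable def numPairs [Fintype N] (x y : G) (H : Subgroup G) : ℕ :=
  (univ.filter fun p : N × N => closure {x * (p.1 : G), y * (p.2 : G)} = H).card

theorem closure_pair_le {H : Subgroup G} {x y : G} : closure {x, y} ≤ H ↔ x ∈ H ∧ y ∈ H := by
  rw [closure_le, Set.insert_subset_iff, Set.singleton_subset_iff]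
  rfl

theorem sup_of_pair {x y : G} (hxy : closure {x, y} ⊔ N = ⊤) {n m : G} (hn : n ∈ N) (hm : m ∈ N)
    {H : Subgroup G} (hx : x * n ∈ H) (hy : y * m ∈ H) : H ⊔ N = ⊤ := by
  rw [← top_le_iff, ← hxy, sup_le_iff]
  refine ⟨?_, le_sup_right⟩
  rw [closure_pair_le]
  have hN : N ≤ H ⊔ N := le_sup_right
  have hH : H ≤ H ⊔ N := le_sup_left
  exact ⟨(Subgroup.mul_mem_cancel_right _ (hN hn)).1 (hH hx),
    (Subgroup.mul_mem_cancel_right _ (hN hm)).1 (hH hy)⟩

theorem numPairs_eq [Fintype N] (a b x y : G) (hab : closure {a, b} ⊔ N = ⊤)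
    (hxy : closure {x, y} ⊔ N = ⊤) (H : Subgroup G) : numPairs N x y H = numPairs N a b H := by
  classical
  have := Fintype.ofFinite G
  have := Fintype.ofFinite (Subgroup G)
  induction hc : Nat.card H using Nat.strong_induction_on generalizing H with
  | _ c ih =>
    by_cases hHN : H ⊔ N = ⊤
    · have key : ∀ u v : G, numPairs N u v H + ∑ K ∈ univ.filter (fun K : Subgroup G => K < H),
          numPairs N u v K =
          (univ.filter fun n : N => (n : G) ∈ H).card * (univ.filter fun n : N => (n : G) ∈ H).card := by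
        intro u v
        have h1 : (univ.filter fun p : N × N => u * (p.1 : G) ∈ H ∧ v * (p.2 : G) ∈ H).card =
            (univ.filter fun n : N => (n : G) ∈ H).card *
              (univ.filter fun n : N => (n : G) ∈ H).card := by
          rw [← univ_product_univ, filter_product (fun n : N => u * (n : G) ∈ H)
            (fun n : N => v * (n : G) ∈ H), card_product, card_coset_eq N H hHN u,
            card_coset_eq N H hHN v]
        rw [← h1]
        have h2 : Set.MapsTo (fun p : N × N => closure {u * (p.1 : G), v * (p.2 : G)})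
            ((univ.filter fun p : N × N => u * (p.1 : G) ∈ H ∧ v * (p.2 : G) ∈ H :
              Finset (N × N)) : Set (N × N))
            (insert H (univ.filter (fun K : Subgroup G => K < H)) : Finset (Subgroup G)) := by
          intro p hp
          rw [mem_coe, mem_filter] at hp
          rw [mem_coe, mem_insert, mem_filter]
          rcases (closure_pair_le.2 hp.2).eq_or_lt with h | h
          · exact Or.inl h
          · exact Or.inr ⟨mem_univ _, h⟩
        rw [card_eq_sum_card_fiberwise h2, sum_insert (by simp)]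
        have h3 : ∀ K : Subgroup G, K ≤ H → ((univ.filter fun p : N × N =>
            u * (p.1 : G) ∈ H ∧ v * (p.2 : G) ∈ H).filter fun p : N × N =>
            closure {u * (p.1 : G), v * (p.2 : G)} = K).card = numPairs N u v K := by
          intro K hK
          unfold numPairs
          congr 1
          ext p
          rw [mem_filter, mem_filter, mem_filter]
          constructor
          · rintro ⟨_, h⟩
            exact ⟨mem_univ _, h⟩
          · rintro ⟨_, h⟩
            exact ⟨⟨mem_univ _, closure_pair_le.1 (h.le.trans hK)⟩, h⟩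
        rw [h3 H le_rfl]
        congr 1
        refine sum_congr rfl fun K hK => ?_
        rw [mem_filter] at hK
        exact (h3 K hK.2.le).symm
      have k1 := key x y
      have k2 := key a b
      have k3 : ∑ K ∈ univ.filter (fun K : Subgroup G => K < H), numPairs N x y K =
          ∑ K ∈ univ.filter (fun K : Subgroup G => K < H), numPairs N a b K := by
        refine sum_congr rfl fun K hK => ?_
        rw [mem_filter] at hK
        refine ih (Nat.card K) ?_ K rfl
        rw [← hc]
        exact Set.Finite.card_lt_card (Set.toFinite _) hK.2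
      omega
    · have h0 : ∀ u v : G, closure {u, v} ⊔ N = ⊤ → numPairs N u v H = 0 := by
        intro u v huv
        unfold numPairs
        rw [card_eq_zero, filter_eq_empty_iff]
        intro p _ hp
        apply hHN
        have := closure_pair_le.1 hp.le
        exact sup_of_pair N huv p.1.2 p.2.2 this.1 this.2
      rw [h0 x y hxy, h0 a b hab]

/-- **Gaschuetz' lemma** for pairs. -/
theorem gaschutz {a b x y : G} (hab : closure {a, b} = ⊤) (hxy : closure {x, y} ⊔ N = ⊤) :
    ∃ n ∈ N, ∃ m ∈ N, closure {x * n, y * m} = ⊤ := by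
  classical
  have := Fintype.ofFinite N
  have h1 := numPairs_eq N a b x y (by rw [hab, top_sup_eq]) hxy ⊤
  have h2 : 0 < numPairs N a b ⊤ := by
    unfold numPairs
    rw [card_pos]
    refine ⟨(1, 1), ?_⟩
    rw [mem_filter]
    refine ⟨mem_univ _, ?_⟩
    simpa using hab
  rw [← h1] at h2
  unfold numPairs at h2
  rw [card_pos] at h2
  obtain ⟨p, hp⟩ := h2
  rw [mem_filter] at hp
  exact ⟨p.1, p.1.2, p.2, p.2.2, hp.2⟩

/-- Generating pairs of a quotient of a 2-generated finite group lift to generating pairs. -/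
theorem gaschutz_quotient (h2 : ∃ a b : G, closure {a, b} = ⊤) {s x : G ⧸ N}
    (hsx : closure {s, x} = ⊤) :
    ∃ s' x' : G, (s' : G ⧸ N) = s ∧ (x' : G ⧸ N) = x ∧ closure {s', x'} = ⊤ := by
  obtain ⟨a, b, hab⟩ := h2
  obtain ⟨s₀, rfl⟩ := QuotientGroup.mk_surjective s
  obtain ⟨x₀, rfl⟩ := QuotientGroup.mk_surjective x
  have h1 : closure {s₀, x₀} ⊔ N = ⊤ := by
    have h3 : (closure {s₀, x₀}).map (QuotientGroup.mk' N) = ⊤ := by
      rw [MonoidHom.map_closure, Set.image_pair]
      exact hsx
    have h4 := Subgroup.comap_map_eq (QuotientGroup.mk' N) (closure {s₀, x₀})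
    rw [h3, comap_top, QuotientGroup.ker_mk'] at h4
    exact h4.symm
  obtain ⟨n, hn, m, hm, h⟩ := gaschutz N hab h1
  refine ⟨s₀ * n, x₀ * m, ?_, ?_, h⟩
  · rw [QuotientGroup.mk_mul, (QuotientGroup.eq_one_iff n).2 hn, mul_one]
  · rw [QuotientGroup.mk_mul, (QuotientGroup.eq_one_iff m).2 hm, mul_one]

end

end Pool.Agent.Lib.MP_cb9b3e_co
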