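import Pool.Agent.Lib.MP_cb9b3e_co.Defs

/-!
# MP_cb9b3e_co : the outcome of the game GEN(G)
-/

set_option autoImplicit false
set_option linter.unusedSectionVars false

namespace Pool.Agent.Lib.MP_cb9b3e_co

open Finset Subgroup

variable {G : Type} [Group G] [Fintype G] [DecidableEq G]

/-- One further element is enough to generate `G`. -/
def D1 (H : Subgroup G) : Prop := ∃ h, H ⊔ zpowers h = ⊤
/-- `H` and any involution generate `G`. -/
def A (H : Subgroup G) : Prop := ∀ t, orderOf t = 2 → H ⊔ zpowers t = ⊤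
/-- `H`, any involution and one suitable further element generate `G`. -/
def Z (H : Subgroup G) : Prop := ∀ t, orderOf t = 2 → D1 (H ⊔ zpowers t)
/-- some proper subgroup `⟨H, g⟩` has the property `A` -/
def AA (H : Subgroup G) : Prop := ∃ g, H ⊔ zpowers g ≠ ⊤ ∧ A (H ⊔ zpowers g)
/-- some subgroup `⟨H, g⟩` has the property `Z` without having the property `D1` -/
def ZZ (H : Subgroup G) : Prop := ∃ g, ¬ D1 (H ⊔ zpowers g) ∧ Z (H ⊔ zpowers g)

theorem sup_one (H : Subgroup G) : H ⊔ zpowers (1 : G) = H := by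
  rw [zpowers_one_eq_bot, sup_bot_eq]

theorem sup_of_mem {H : Subgroup G} {t : G} (h : t ∈ H) : H ⊔ zpowers t = H := by
  rw [sup_eq_left, zpowers_le]; exact h

theorem mem_sup_self (H : Subgroup G) (t : G) : t ∈ H ⊔ zpowers t :=
  (le_sup_right : zpowers t ≤ H ⊔ zpowers t) (mem_zpowers t)

theorem sup_sup_comm (H : Subgroup G) (a b : G) :
    H ⊔ zpowers a ⊔ zpowers b = H ⊔ zpowers b ⊔ zpowers a := by
  rw [sup_assoc, sup_assoc, sup_comm (zpowers a)]

theorem D1_top : D1 (⊤ : Subgroup G) := ⟨1, by rw [sup_one]⟩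

theorem ne_top_of_not_D1 {H : Subgroup G} (h : ¬ D1 H) : H ≠ ⊤ := by
  rintro rfl
  exact h D1_top

theorem D1_mono {H K : Subgroup G} (h : H ≤ K) : D1 H → D1 K := by
  rintro ⟨x, hx⟩
  exact ⟨x, top_le_iff.1 (hx ▸ sup_le_sup_right h _)⟩

theorem A_mono {H K : Subgroup G} (h : H ≤ K) (hA : A H) : A K := fun t ht =>
  top_le_iff.1 (hA t ht ▸ sup_le_sup_right h _)

theorem Z_mono {H K : Subgroup G} (h : H ≤ K) (hZ : Z H) : Z K := fun t ht =>
  D1_mono (sup_le_sup_right h _) (hZ t ht)

theorem not_Z_of_inv {H : Subgroup G} {t : G} (ht : orderOf t = 2) (hH : t ∈ H)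
    (h : ¬ D1 H) : ¬ Z H := by
  intro hZ
  have := hZ t ht
  rw [sup_of_mem hH] at this
  exact h this

theorem not_ZZ_of_inv {H : Subgroup G} {t : G} (ht : orderOf t = 2) (hH : t ∈ H) : ¬ ZZ H := by
  rintro ⟨g, h1, h2⟩
  exact not_Z_of_inv ht ((le_sup_left : H ≤ H ⊔ zpowers g) hH) h1 h2

theorem not_A_of_inv {H : Subgroup G} {t : G} (ht : orderOf t = 2) (hH : t ∈ H)
    (h : H ≠ ⊤) : ¬ A H := by
  intro hA
  have := hA t ht
  rw [sup_of_mem hH] at this
  exact h this

theorem not_AA_of_inv {H : Subgroup G} {t : G} (ht : orderOf t = 2) (hH : t ∈ H) : ¬ AA H := by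
  rintro ⟨g, h1, h2⟩
  exact not_A_of_inv ht ((le_sup_left : H ≤ H ⊔ zpowers g) hH) h1 h2

theorem ZZ_of_Z {H : Subgroup G} (h1 : ¬ D1 H) (h2 : Z H) : ZZ H :=
  ⟨1, by rwa [sup_one], by rwa [sup_one]⟩

theorem AA_of_A {H : Subgroup G} (h1 : H ≠ ⊤) (h2 : A H) : AA H :=
  ⟨1, by rwa [sup_one], by rwa [sup_one]⟩

/-- The outcome of the game at every position. -/
theorem outcome (P : Finset G) :
    (cl P ≠ ⊤ → D1 (cl P) → nim P ≠ 0) ∧
    (¬ D1 (cl P) → Even P.card → (nim P = 0 ↔ ¬ ZZ (cl P))) ∧
    (¬ D1 (cl P) → ¬ Even P.card → (nim P = 0 ↔ Z (cl P))) := by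
  induction P using pos_induction with
  | h P ih =>
    have step1 : cl P ≠ ⊤ → D1 (cl P) → nim P ≠ 0 := by
      rintro h ⟨x, hx⟩ h0
      have hxP : x ∉ P := by
        intro hxP
        rw [sup_of_mem (mem_cl hxP)] at hx
        exact h hx
      refine nim_ne h hxP ?_
      rw [h0]
      exact nim_top (by rw [cl_insert]; exact hx)
    refine ⟨step1, ?_, ?_⟩
    · intro h1 he
      have hne := ne_top_of_not_D1 h1
      constructor
      · intro h0 hZZ
        -- a winning option
        have key : ∃ g, g ∉ P ∧ ¬ D1 (cl (insert g P)) ∧ Z (cl (insert g P)) := by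
          by_cases hZ : Z (cl P)
          · obtain ⟨g, hg1, hg2⟩ := exists_mem_cl (P := P) (by
              intro hiff
              exact odd_of_no_inv (cl P) (fun t ht htH => not_Z_of_inv ht htH h1 hZ)
                (hiff.1 he))
            exact ⟨g, hg1, by rwa [cl_insert_of_mem hg2], by rwa [cl_insert_of_mem hg2]⟩
          · obtain ⟨g, hg1, hg2⟩ := hZZ
            refine ⟨g, ?_, by rwa [cl_insert], by rwa [cl_insert]⟩
            intro hgP
            rw [sup_of_mem (mem_cl hgP)] at hg2
            exact hZ hg2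
        obtain ⟨g, hg, hg1, hg2⟩ := key
        refine nim_ne hne hg ?_
        rw [h0]
        exact ((ih g hg).2.2 hg1 (by rw [even_insert hg]; exact fun h => h he)).2 hg2
      · intro hZZ
        refine nim_eq hne ?_ (by intro w hw; omega)
        intro g hg h0
        by_cases hD : D1 (cl (insert g P))
        · refine (ih g hg).1 ?_ hD h0
          intro htop
          exact h1 ⟨g, by rw [← cl_insert]; exact htop⟩
        · have h2 := ((ih g hg).2.2 hD (by rw [even_insert hg]; exact fun h => h he)).1 h0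
          rw [cl_insert] at hD h2
          exact hZZ ⟨g, hD, h2⟩
    · intro h1 he
      have hne := ne_top_of_not_D1 h1
      constructor
      · intro h0
        by_contra hZ
        have key : ∃ g, g ∉ P ∧ ¬ D1 (cl (insert g P)) ∧ ¬ ZZ (cl (insert g P)) := by
          have hZ2 : ∃ t, orderOf t = 2 ∧ ¬ D1 (cl P ⊔ zpowers t) := by
            unfold Z at hZ
            push Not at hZ
            exact hZ
          obtain ⟨t, ht, ht1⟩ := hZ2
          by_cases htP : t ∈ P
          · have htc : t ∈ cl P := mem_cl htP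
            obtain ⟨g, hg1, hg2⟩ := exists_mem_cl (P := P) (by
              intro hiff
              exact he (hiff.2 (even_of_inv (cl P) ht htc)))
            refine ⟨g, hg1, by rwa [cl_insert_of_mem hg2], ?_⟩
            rw [cl_insert_of_mem hg2]
            exact not_ZZ_of_inv ht htc
          · refine ⟨t, htP, by rwa [cl_insert], ?_⟩
            rw [cl_insert]
            exact not_ZZ_of_inv ht (mem_sup_self _ t)
        obtain ⟨g, hg, hg1, hg2⟩ := key
        refine nim_ne hne hg ?_
        rw [h0]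
        exact ((ih g hg).2.1 hg1 ((even_insert hg).2 he)).2 hg2
      · intro hZ
        refine nim_eq hne ?_ (by intro w hw; omega)
        intro g hg h0
        by_cases hD : D1 (cl (insert g P))
        · refine (ih g hg).1 ?_ hD h0
          intro htop
          exact h1 ⟨g, by rw [← cl_insert]; exact htop⟩
        · have h2 := ((ih g hg).2.1 hD ((even_insert hg).2 he)).1 h0
          exact h2 (ZZ_of_Z hD (Z_mono (cl_le_insert g P) hZ))

end Pool.Agent.Lib.MP_cb9b3e_co
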