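import Pool.Agent.Lib.MP_cb9b3e_co.Outcome

/-!
# MP_cb9b3e_co : exact values one step from the end
-/

set_option autoImplicit false
set_option linter.unusedSectionVars false

namespace Pool.Agent.Lib.MP_cb9b3e_co

open Finset Subgroup

variable {G : Type} [Group G] [Fintype G] [DecidableEq G]

/-- A generating option has nim-number zero. -/
theorem exists_zero_of_D1 {P : Finset G} (h : cl P ≠ ⊤) (hD : D1 (cl P)) :
    ∃ g, g ∉ P ∧ nim (insert g P) = 0 := by
  obtain ⟨x, hx⟩ := hD
  refine ⟨x, ?_, nim_top (by rw [cl_insert]; exact hx)⟩
  intro hxP
  rw [sup_of_mem (mem_cl hxP)] at hx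
  exact h hx

/-- The nim-numbers of the positions with one further element needed. -/
theorem val1 (P : Finset G) :
    cl P ≠ ⊤ → D1 (cl P) →
    (A (cl P) → (Even P.card → nim P = 2) ∧ (¬ Even P.card → nim P = 1)) ∧
    (¬ A (cl P) → AA (cl P) → (Even P.card → nim P = 4) ∧ (¬ Even P.card → nim P = 3)) ∧
    (¬ AA (cl P) → (Even P.card → nim P = 1) ∧ (¬ Even P.card → nim P = 2)) := by
  induction P using pos_induction with
  | h P ih =>
    intro h hD
    have hz := exists_zero_of_D1 h hD
    -- the values of the options
    have he : ∀ g, g ∉ P → Even P.card →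
        (cl (insert g P) = ⊤ ∧ nim (insert g P) = 0) ∨
        (cl (insert g P) ≠ ⊤ ∧ A (cl (insert g P)) ∧ nim (insert g P) = 1) ∨
        (cl (insert g P) ≠ ⊤ ∧ ¬ A (cl (insert g P)) ∧ AA (cl (insert g P)) ∧
          nim (insert g P) = 3) ∨
        (cl (insert g P) ≠ ⊤ ∧ ¬ AA (cl (insert g P)) ∧ nim (insert g P) = 2) := by
      intro g hg hev
      by_cases ht : cl (insert g P) = ⊤
      · exact Or.inl ⟨ht, nim_top ht⟩
      have hod : ¬ Even (insert g P).card := by rw [even_insert hg]; exact fun h => h hev
      have hI := ih g hg ht (D1_mono (cl_le_insert g P) hD)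
      by_cases hA : A (cl (insert g P))
      · exact Or.inr (Or.inl ⟨ht, hA, (hI.1 hA).2 hod⟩)
      by_cases hAA : AA (cl (insert g P))
      · exact Or.inr (Or.inr (Or.inl ⟨ht, hA, hAA, (hI.2.1 hA hAA).2 hod⟩))
      · exact Or.inr (Or.inr (Or.inr ⟨ht, hAA, (hI.2.2 hAA).2 hod⟩))
    have ho : ∀ g, g ∉ P → ¬ Even P.card →
        (cl (insert g P) = ⊤ ∧ nim (insert g P) = 0) ∨
        (cl (insert g P) ≠ ⊤ ∧ A (cl (insert g P)) ∧ nim (insert g P) = 2) ∨
        (cl (insert g P) ≠ ⊤ ∧ ¬ A (cl (insert g P)) ∧ AA (cl (insert g P)) ∧
          nim (insert g P) = 4) ∨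
        (cl (insert g P) ≠ ⊤ ∧ ¬ AA (cl (insert g P)) ∧ nim (insert g P) = 1) := by
      intro g hg hev
      by_cases ht : cl (insert g P) = ⊤
      · exact Or.inl ⟨ht, nim_top ht⟩
      have hod : Even (insert g P).card := (even_insert hg).2 hev
      have hI := ih g hg ht (D1_mono (cl_le_insert g P) hD)
      by_cases hA : A (cl (insert g P))
      · exact Or.inr (Or.inl ⟨ht, hA, (hI.1 hA).1 hod⟩)
      by_cases hAA : AA (cl (insert g P))
      · exact Or.inr (Or.inr (Or.inl ⟨ht, hA, hAA, (hI.2.1 hA hAA).1 hod⟩))
      · exact Or.inr (Or.inr (Or.inr ⟨ht, hAA, (hI.2.2 hAA).1 hod⟩))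
    refine ⟨?_, ?_, ?_⟩
    · -- type A
      intro hA
      have hno : ¬ Even (Nat.card (cl P)) :=
        odd_of_no_inv _ (fun t ht htH => not_A_of_inv ht htH h hA)
      constructor
      · intro hev
        refine nim_eq h ?_ ?_
        · intro g hg
          rcases he g hg hev with h1 | h1 | h1 | h1
          · omega
          · omega
          · exact absurd (A_mono (cl_le_insert g P) hA) h1.2.1
          · exact absurd (AA_of_A h1.1 (A_mono (cl_le_insert g P) hA)) h1.2.1
        · intro w hw
          have : w = 0 ∨ w = 1 := by omega
          rcases this with rfl | rfl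
          · exact hz
          · obtain ⟨g, hg, hgc⟩ := exists_mem_cl (P := P) (fun hiff => hno (hiff.1 hev))
            refine ⟨g, hg, ?_⟩
            rcases he g hg hev with h1 | h1 | h1 | h1
            · rw [cl_insert_of_mem hgc] at h1; exact absurd h1.1 h
            · exact h1.2.2
            · exact absurd (A_mono (cl_le_insert g P) hA) h1.2.1
            · exact absurd (AA_of_A h1.1 (A_mono (cl_le_insert g P) hA)) h1.2.1
      · intro hev
        refine nim_eq h ?_ ?_
        · intro g hg
          rcases ho g hg hev with h1 | h1 | h1 | h1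
          · omega
          · omega
          · omega
          · exact absurd (AA_of_A h1.1 (A_mono (cl_le_insert g P) hA)) h1.2.1
        · intro w hw
          have : w = 0 := by omega
          rw [this]; exact hz
    · -- type AA but not A
      intro hA hAA
      have hno : ¬ Even (Nat.card (cl P)) :=
        odd_of_no_inv _ (fun t ht htH => not_AA_of_inv ht htH hAA)
      -- an option of type `not AA`
      have hopt1 : ∃ t, t ∉ P ∧ cl (insert t P) ≠ ⊤ ∧ ¬ AA (cl (insert t P)) := by
        unfold A at hA
        push Not at hA
        obtain ⟨t, ht, ht1⟩ := hA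
        refine ⟨t, ?_, by rw [cl_insert]; exact ht1, ?_⟩
        · intro htP
          exact not_AA_of_inv ht (mem_cl htP) hAA
        · rw [cl_insert]; exact not_AA_of_inv ht (mem_sup_self _ t)
      -- an option of type `A`
      have hopt2 : ∃ g, g ∉ P ∧ cl (insert g P) ≠ ⊤ ∧ A (cl (insert g P)) := by
        obtain ⟨g, hg1, hg2⟩ := hAA
        refine ⟨g, ?_, by rw [cl_insert]; exact hg1, by rw [cl_insert]; exact hg2⟩
        intro hgP
        rw [sup_of_mem (mem_cl hgP)] at hg2
        exact hA hg2
      constructor
      · intro hev
        refine nim_eq h ?_ ?_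
        · intro g hg
          rcases he g hg hev with h1 | h1 | h1 | h1 <;> omega
        · intro w hw
          have : w = 0 ∨ w = 1 ∨ w = 2 ∨ w = 3 := by omega
          rcases this with rfl | rfl | rfl | rfl
          · exact hz
          · obtain ⟨g, hg, hg1, hg2⟩ := hopt2
            refine ⟨g, hg, ?_⟩
            rcases he g hg hev with h1 | h1 | h1 | h1
            · exact absurd h1.1 hg1
            · exact h1.2.2
            · exact absurd hg2 h1.2.1
            · exact absurd (AA_of_A h1.1 hg2) h1.2.1
          · obtain ⟨g, hg, hg1, hg2⟩ := hopt1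
            refine ⟨g, hg, ?_⟩
            rcases he g hg hev with h1 | h1 | h1 | h1
            · exact absurd h1.1 hg1
            · exact absurd (AA_of_A h1.1 h1.2.1) hg2
            · exact absurd h1.2.2.1 hg2
            · exact h1.2.2
          · obtain ⟨g, hg, hgc⟩ := exists_mem_cl (P := P) (fun hiff => hno (hiff.1 hev))
            refine ⟨g, hg, ?_⟩
            have := he g hg hev
            rw [cl_insert_of_mem hgc] at this
            rcases this with h1 | h1 | h1 | h1
            · exact absurd h1.1 h
            · exact absurd h1.2.1 hA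
            · exact h1.2.2.2
            · exact absurd hAA h1.2.1
      · intro hev
        refine nim_eq h ?_ ?_
        · intro g hg
          rcases ho g hg hev with h1 | h1 | h1 | h1 <;> omega
        · intro w hw
          have : w = 0 ∨ w = 1 ∨ w = 2 := by omega
          rcases this with rfl | rfl | rfl
          · exact hz
          · obtain ⟨g, hg, hg1, hg2⟩ := hopt1
            refine ⟨g, hg, ?_⟩
            rcases ho g hg hev with h1 | h1 | h1 | h1
            · exact absurd h1.1 hg1
            · exact absurd (AA_of_A h1.1 h1.2.1) hg2
            · exact absurd h1.2.2.1 hg2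
            · exact h1.2.2
          · obtain ⟨g, hg, hg1, hg2⟩ := hopt2
            refine ⟨g, hg, ?_⟩
            rcases ho g hg hev with h1 | h1 | h1 | h1
            · exact absurd h1.1 hg1
            · exact h1.2.2
            · exact absurd hg2 h1.2.1
            · exact absurd (AA_of_A h1.1 hg2) h1.2.1
    · -- type `not AA`
      intro hAA
      have hnA : ∀ g, cl (insert g P) ≠ ⊤ → ¬ A (cl (insert g P)) := by
        intro g h1 h2
        rw [cl_insert] at h1 h2
        exact hAA ⟨g, h1, h2⟩
      constructor
      · intro hev
        refine nim_eq h ?_ ?_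
        · intro g hg
          rcases he g hg hev with h1 | h1 | h1 | h1
          · omega
          · exact absurd h1.2.1 (hnA g h1.1)
          · omega
          · omega
        · intro w hw
          have : w = 0 := by omega
          rw [this]; exact hz
      · intro hev
        refine nim_eq h ?_ ?_
        · intro g hg
          rcases ho g hg hev with h1 | h1 | h1 | h1
          · omega
          · exact absurd h1.2.1 (hnA g h1.1)
          · omega
          · omega
        · intro w hw
          have : w = 0 ∨ w = 1 := by omega
          rcases this with rfl | rfl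
          · exact hz
          · have hA : ¬ A (cl P) := fun hA => hAA (AA_of_A h hA)
            unfold A at hA
            push Not at hA
            obtain ⟨t, ht, ht1⟩ := hA
            by_cases htP : t ∈ P
            · obtain ⟨g, hg, hgc⟩ := exists_mem_cl (P := P)
                (fun hiff => hev (hiff.2 (even_of_inv _ ht (mem_cl htP))))
              refine ⟨g, hg, ?_⟩
              have := ho g hg hev
              rw [cl_insert_of_mem hgc] at this
              rcases this with h1 | h1 | h1 | h1
              · exact absurd h1.1 h
              · exact absurd (AA_of_A h h1.2.1) hAA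
              · exact absurd h1.2.2.1 hAA
              · exact h1.2.2
            · refine ⟨t, htP, ?_⟩
              have h2 : ¬ AA (cl (insert t P)) := by
                rw [cl_insert]; exact not_AA_of_inv ht (mem_sup_self _ t)
              rcases ho t htP hev with h1 | h1 | h1 | h1
              · rw [cl_insert] at h1; exact absurd h1.1 ht1
              · exact absurd (AA_of_A h1.1 h1.2.1) h2
              · exact absurd h1.2.2.1 h2
              · exact h1.2.2

end Pool.Agent.Lib.MP_cb9b3e_co
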