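import Pool.Agent.Lib.MP_cb9b3e_co.ValOne

/-!
# MP_cb9b3e_co : exact values two and three steps from the end
-/

set_option autoImplicit false
set_option linter.unusedSectionVars false

namespace Pool.Agent.Lib.MP_cb9b3e_co

open Finset Subgroup

variable {G : Type} [Group G] [Fintype G] [DecidableEq G]

/-- Two further elements are enough to generate `G`. -/
def D2 (H : Subgroup G) : Prop := ∃ h, D1 (H ⊔ zpowers h)

/-- some `⟨H, g⟩` needs one further element, does not generate `G` with some involution, and
can be enlarged to a proper subgroup with the property `A` -/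
def BB (H : Subgroup G) : Prop :=
  ∃ g, D1 (H ⊔ zpowers g) ∧ ¬ A (H ⊔ zpowers g) ∧ AA (H ⊔ zpowers g)

variable (G) in
/-- The condition on `G` which excludes anomalies. -/
def EE : Prop := ∀ K : Subgroup G, ¬ D1 K → D2 K → ¬ Z K →
  ∃ g, D1 (K ⊔ zpowers g) ∧ ¬ AA (K ⊔ zpowers g)

variable (G) in
/-- No proper subgroup has the property `A`. -/
def NA : Prop := ∀ K : Subgroup G, K ≠ ⊤ → ¬ A K

theorem D2_mono {H K : Subgroup G} (h : H ≤ K) : D2 H → D2 K := by
  rintro ⟨x, hx⟩
  exact ⟨x, D1_mono (sup_le_sup_right h _) hx⟩

theorem D1_of_mem {P : Finset G} {g : G} (h1 : ¬ D1 (cl P)) (h2 : D1 (cl (insert g P))) :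
    g ∉ P := by
  intro hg
  rw [cl_insert_of_mem (mem_cl hg)] at h2
  exact h1 h2

theorem cl_insert_ne_top {P : Finset G} (h1 : ¬ D1 (cl P)) (g : G) : cl (insert g P) ≠ ⊤ := by
  intro htop
  exact h1 ⟨g, by rw [← cl_insert]; exact htop⟩

theorem Z_of_AA {H : Subgroup G} (h : AA H) : Z H := by
  obtain ⟨g, _, hA⟩ := h
  intro t ht
  refine ⟨g, ?_⟩
  rw [sup_sup_comm]
  exact hA t ht

/-- Even positions of type `Z`. -/
theorem val2Z {P : Finset G} (hG : ∃ t : G, orderOf t = 2) (h1 : ¬ D1 (cl P)) (hZ : Z (cl P))
    (he : Even P.card) :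
    (¬ AA (cl P) → nim P = 1) ∧ (AA (cl P) → ¬ BB (cl P) → nim P = 3) ∧
    (AA (cl P) → BB (cl P) → nim P = 4) := by
  have hne := ne_top_of_not_D1 h1
  have hno : ¬ Even (Nat.card (cl P)) :=
    odd_of_no_inv _ (fun t ht htH => not_Z_of_inv ht htH h1 hZ)
  have hodd : ∀ g, g ∉ P → ¬ Even (insert g P).card := fun g hg => by
    rw [even_insert hg]; exact fun h => h he
  -- zero is an option
  have h0 : ∃ g, g ∉ P ∧ nim (insert g P) = 0 := by
    obtain ⟨g, hg1, hg2⟩ := exists_mem_cl (P := P) (fun hiff => hno (hiff.1 he))
    refine ⟨g, hg1, ((outcome (insert g P)).2.2 ?_ (hodd g hg1)).2 ?_⟩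
    · rwa [cl_insert_of_mem hg2]
    · rwa [cl_insert_of_mem hg2]
  -- two is an option
  have h2 : ∃ g, g ∉ P ∧ nim (insert g P) = 2 := by
    obtain ⟨t, ht⟩ := hG
    have hD : D1 (cl (insert t P)) := by rw [cl_insert]; exact hZ t ht
    have htP := D1_of_mem h1 hD
    refine ⟨t, htP, ((val1 (insert t P) (cl_insert_ne_top h1 t) hD).2.2 ?_).2 (hodd t htP)⟩
    rw [cl_insert]
    exact not_AA_of_inv ht (mem_sup_self _ t)
  -- the values of the options
  have hopt : ∀ g, g ∉ P →
      nim (insert g P) = 0 ∨ (A (cl (insert g P)) ∧ nim (insert g P) = 1) ∨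
      (D1 (cl (insert g P)) ∧ ¬ A (cl (insert g P)) ∧ AA (cl (insert g P)) ∧
        nim (insert g P) = 3) ∨ nim (insert g P) = 2 := by
    intro g hg
    by_cases hD : D1 (cl (insert g P))
    · have hv := val1 (insert g P) (cl_insert_ne_top h1 g) hD
      by_cases hA : A (cl (insert g P))
      · exact Or.inr (Or.inl ⟨hA, (hv.1 hA).2 (hodd g hg)⟩)
      by_cases hAA : AA (cl (insert g P))
      · exact Or.inr (Or.inr (Or.inl ⟨hD, hA, hAA, (hv.2.1 hA hAA).2 (hodd g hg)⟩))
      · exact Or.inr (Or.inr (Or.inr ((hv.2.2 hAA).2 (hodd g hg))))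
    · exact Or.inl (((outcome (insert g P)).2.2 hD (hodd g hg)).2
        (Z_mono (cl_le_insert g P) hZ))
  -- one is an option if `AA` holds
  have h1' : AA (cl P) → ∃ g, g ∉ P ∧ nim (insert g P) = 1 := by
    rintro ⟨g, hg1, hg2⟩
    obtain ⟨t, ht⟩ := hG
    have hD : D1 (cl (insert g P)) := by rw [cl_insert]; exact ⟨t, hg2 t ht⟩
    have hgP := D1_of_mem h1 hD
    refine ⟨g, hgP, ((val1 (insert g P) (cl_insert_ne_top h1 g) hD).1 ?_).2 (hodd g hgP)⟩
    rw [cl_insert]
    exact hg2
  have h3' : BB (cl P) → ∃ g, g ∉ P ∧ nim (insert g P) = 3 := by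
    rintro ⟨g, hg1, hg2, hg3⟩
    have hD : D1 (cl (insert g P)) := by rw [cl_insert]; exact hg1
    have hgP := D1_of_mem h1 hD
    refine ⟨g, hgP,
      ((val1 (insert g P) (cl_insert_ne_top h1 g) hD).2.1 ?_ ?_).2 (hodd g hgP)⟩
    · rw [cl_insert]; exact hg2
    · rw [cl_insert]; exact hg3
  refine ⟨?_, ?_, ?_⟩
  · intro hAA
    refine nim_eq hne ?_ ?_
    · intro g hg hv
      rcases hopt g hg with h | h | h | h
      · omega
      · apply hAA
        refine ⟨g, ?_, ?_⟩
        · rw [← cl_insert]; exact cl_insert_ne_top h1 g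
        · rw [← cl_insert]; exact h.1
      · omega
      · omega
    · intro w hw
      have : w = 0 := by omega
      rw [this]; exact h0
  · intro hAA hBB
    refine nim_eq hne ?_ ?_
    · intro g hg hv
      rcases hopt g hg with h | h | h | h
      · omega
      · omega
      · apply hBB
        refine ⟨g, ?_, ?_, ?_⟩
        · rw [← cl_insert]; exact h.1
        · rw [← cl_insert]; exact h.2.1
        · rw [← cl_insert]; exact h.2.2.1
      · omega
    · intro w hw
      have : w = 0 ∨ w = 1 ∨ w = 2 := by omega
      rcases this with rfl | rfl | rfl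
      · exact h0
      · exact h1' hAA
      · exact h2
  · intro hAA hBB
    refine nim_eq hne ?_ ?_
    · intro g hg hv
      rcases hopt g hg with h | h | h | h <;> omega
    · intro w hw
      have : w = 0 ∨ w = 1 ∨ w = 2 ∨ w = 3 := by omega
      rcases this with rfl | rfl | rfl | rfl
      · exact h0
      · exact h1' hAA
      · exact h2
      · exact h3' hBB

/-- Odd positions with an involution in the generated subgroup. -/
theorem val2inv {P : Finset G} {t : G} (ht : orderOf t = 2) (htP : t ∈ cl P)
    (h1 : ¬ D1 (cl P)) (h2 : D2 (cl P)) (he : ¬ Even P.card) : nim P = 2 := by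
  have hne := ne_top_of_not_D1 h1
  have hin : ∀ g, t ∈ cl (insert g P) := fun g => cl_le_insert g P htP
  have hopt : ∀ g, g ∉ P → (¬ D1 (cl (insert g P)) ∧ nim (insert g P) = 0) ∨
      (D1 (cl (insert g P)) ∧ nim (insert g P) = 1) := by
    intro g hg
    have hev : Even (insert g P).card := (even_insert hg).2 he
    by_cases hD : D1 (cl (insert g P))
    · exact Or.inr ⟨hD, ((val1 (insert g P) (cl_insert_ne_top h1 g) hD).2.2
        (not_AA_of_inv ht (hin g))).1 hev⟩
    · exact Or.inl ⟨hD, ((outcome (insert g P)).2.1 hD hev).2 (not_ZZ_of_inv ht (hin g))⟩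
  refine nim_eq hne ?_ ?_
  · intro g hg
    rcases hopt g hg with h | h <;> omega
  · intro w hw
    have : w = 0 ∨ w = 1 := by omega
    rcases this with rfl | rfl
    · obtain ⟨g, hg1, hg2⟩ := exists_mem_cl (P := P)
        (fun hiff => he (hiff.2 (even_of_inv _ ht htP)))
      refine ⟨g, hg1, ?_⟩
      rcases hopt g hg1 with h | h
      · exact h.2
      · rw [cl_insert_of_mem hg2] at h; exact absurd h.1 h1
    · obtain ⟨g, hg⟩ := h2
      rw [← cl_insert] at hg
      have hgP := D1_of_mem h1 hg
      refine ⟨g, hgP, ?_⟩
      rcases hopt g hgP with h | h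
      · exact absurd hg h.1
      · exact h.2

/-- Positions which need exactly two further elements and are not of type `Z`. -/
theorem val2 (hG : ∃ t : G, orderOf t = 2) (P : Finset G) :
    ¬ D1 (cl P) → D2 (cl P) → ¬ Z (cl P) →
    (¬ Even P.card → (nim P = 1 ∨ nim P = 2) ∧ (EE G → nim P = 2)) ∧
    (Even P.card → ZZ (cl P) →
      (nim P = 1 ∨ nim P = 3 ∨ nim P = 4) ∧ (EE G → nim P = 1)) := by
  induction P using pos_induction with
  | h P ih =>
    intro h1 h2 hZ
    have hne := ne_top_of_not_D1 h1
    have hnAA : ∀ g, ¬ A (cl (insert g P)) := by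
      intro g hA
      apply hZ
      apply Z_of_AA
      exact ⟨g, by rw [← cl_insert]; exact cl_insert_ne_top h1 g, by rw [← cl_insert]; exact hA⟩
    constructor
    · intro he
      have hn0 : nim P ≠ 0 := fun h => hZ (((outcome P).2.2 h1 he).1 h)
      have hle : nim P ≤ 2 := by
        refine nim_le hne ?_
        intro g hg
        have hev : Even (insert g P).card := (even_insert hg).2 he
        by_cases hD : D1 (cl (insert g P))
        · have hv := val1 (insert g P) (cl_insert_ne_top h1 g) hD
          by_cases hAA : AA (cl (insert g P))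
          · have := (hv.2.1 (hnAA g) hAA).1 hev
            omega
          · have := (hv.2.2 hAA).1 hev
            omega
        by_cases hZ' : Z (cl (insert g P))
        · have hv := val2Z hG hD hZ' hev
          by_cases hAA : AA (cl (insert g P))
          · by_cases hBB : BB (cl (insert g P))
            · have := hv.2.2 hAA hBB
              omega
            · have := hv.2.1 hAA hBB
              omega
          · have := hv.1 hAA
            omega
        by_cases hZZ : ZZ (cl (insert g P))
        · have := (((ih g hg) hD (D2_mono (cl_le_insert g P) h2) hZ').2 hev hZZ).1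
          omega
        · have := ((outcome (insert g P)).2.1 hD hev).2 hZZ
          omega
      refine ⟨by omega, fun hE => ?_⟩
      obtain ⟨g, hg1, hg2⟩ := hE _ h1 h2 hZ
      rw [← cl_insert] at hg1 hg2
      have hgP := D1_of_mem h1 hg1
      have h3 := ((val1 (insert g P) (cl_insert_ne_top h1 g) hg1).2.2 hg2).1
        ((even_insert hgP).2 he)
      have h4 := nim_ne hne hgP
      omega
    · intro he hZZ
      have hn0 : nim P ≠ 0 := fun h => ((outcome P).2.1 h1 he).1 h hZZ
      have hodd : ∀ g, g ∉ P → ¬ Even (insert g P).card := fun g hg => by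
        rw [even_insert hg]; exact fun h => h he
      have hn2 : nim P ≠ 2 := by
        have hZ2 := hZ
        unfold Z at hZ2
        push Not at hZ2
        obtain ⟨t, ht, ht1⟩ := hZ2
        have htP : t ∉ P := fun htP => not_ZZ_of_inv ht (mem_cl htP) hZZ
        have h3 : nim (insert t P) = 2 := by
          refine val2inv ht ?_ ?_ (D2_mono (cl_le_insert t P) h2) (hodd t htP)
          · exact mem_cl (mem_insert_self t P)
          · rw [cl_insert]; exact ht1
        have h4 := nim_ne hne htP
        omega
      have hopt : ∀ g, g ∉ P → nim (insert g P) = 0 ∨ nim (insert g P) = 1 ∨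
          nim (insert g P) = 2 ∨ nim (insert g P) = 3 := by
        intro g hg
        by_cases hD : D1 (cl (insert g P))
        · have hv := val1 (insert g P) (cl_insert_ne_top h1 g) hD
          by_cases hAA : AA (cl (insert g P))
          · have := (hv.2.1 (hnAA g) hAA).2 (hodd g hg)
            omega
          · have := (hv.2.2 hAA).2 (hodd g hg)
            omega
        by_cases hZ' : Z (cl (insert g P))
        · have := ((outcome (insert g P)).2.2 hD (hodd g hg)).2 hZ'
          omega
        · have := (((ih g hg) hD (D2_mono (cl_le_insert g P) h2) hZ').1 (hodd g hg)).1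
          omega
      have hle : nim P ≤ 4 := by
        refine nim_le hne ?_
        intro g hg
        have := hopt g hg
        omega
      refine ⟨by omega, fun hE => ?_⟩
      have hle1 : nim P ≤ 1 := by
        refine nim_le hne ?_
        intro g hg
        by_cases hD : D1 (cl (insert g P))
        · have hv := val1 (insert g P) (cl_insert_ne_top h1 g) hD
          by_cases hAA : AA (cl (insert g P))
          · have := (hv.2.1 (hnAA g) hAA).2 (hodd g hg)
            omega
          · have := (hv.2.2 hAA).2 (hodd g hg)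
            omega
        by_cases hZ' : Z (cl (insert g P))
        · have := ((outcome (insert g P)).2.2 hD (hodd g hg)).2 hZ'
          omega
        · have := (((ih g hg) hD (D2_mono (cl_le_insert g P) h2) hZ').1 (hodd g hg)).2 hE
          omega
      omega

/-- Positions which need exactly three further elements, with a good option. -/
theorem val3 (hG : ∃ t : G, orderOf t = 2) (P : Finset G) :
    ¬ D2 (cl P) → ZZ (cl P) →
    (¬ Even P.card → (nim P = 1 ∨ nim P = 2) ∧ (EE G → NA G → nim P = 2)) ∧
    (Even P.card → (nim P = 1 ∨ nim P = 3) ∧ (EE G → NA G → nim P = 1)) := by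
  induction P using pos_induction with
  | h P ih =>
    intro h2 hZZ
    have h1 : ¬ D1 (cl P) := fun h => h2 (by
      obtain ⟨x, hx⟩ := h
      exact ⟨x, by rw [hx]; exact D1_top⟩)
    have hne := ne_top_of_not_D1 h1
    have hD1 : ∀ g, ¬ D1 (cl (insert g P)) := fun g h => h2 ⟨g, by rw [← cl_insert]; exact h⟩
    have hZ : ¬ Z (cl P) := by
      intro hZ
      obtain ⟨t, ht⟩ := hG
      exact h2 ⟨t, hZ t ht⟩
    have hinh : ∀ g, ¬ D2 (cl (insert g P)) → ZZ (cl (insert g P)) := by
      intro g hg
      obtain ⟨x, hx1, hx2⟩ := hZZ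
      exact ⟨x, fun h => hg ⟨x, h⟩, Z_mono (sup_le_sup_right (cl_le_insert g P) _) hx2⟩
    constructor
    · intro he
      have hn0 : nim P ≠ 0 := fun h => hZ (((outcome P).2.2 h1 he).1 h)
      have hle : nim P ≤ 2 := by
        refine nim_le hne ?_
        intro g hg
        have hev : Even (insert g P).card := (even_insert hg).2 he
        by_cases hD : D2 (cl (insert g P))
        · by_cases hZ' : Z (cl (insert g P))
          · have hv := val2Z hG (hD1 g) hZ' hev
            by_cases hAA : AA (cl (insert g P))
            · by_cases hBB : BB (cl (insert g P))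
              · have := hv.2.2 hAA hBB
                omega
              · have := hv.2.1 hAA hBB
                omega
            · have := hv.1 hAA
              omega
          by_cases hZZ' : ZZ (cl (insert g P))
          · have := ((val2 hG (insert g P) (hD1 g) hD hZ').2 hev hZZ').1
            omega
          · have := ((outcome (insert g P)).2.1 (hD1 g) hev).2 hZZ'
            omega
        · have := ((ih g hg hD (hinh g hD)).2 hev).1
          omega
      refine ⟨by omega, fun hE hN => ?_⟩
      obtain ⟨g, hg1, hg2⟩ := hZZ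
      rw [← cl_insert] at hg1 hg2
      have hgP : g ∉ P := by
        intro hgP
        rw [cl_insert_of_mem (mem_cl hgP)] at hg2
        exact hZ hg2
      have h3 := (val2Z hG (hD1 g) hg2 ((even_insert hgP).2 he)).1 (by
        rintro ⟨x, hx1, hx2⟩
        exact hN _ hx1 hx2)
      have h4 := nim_ne hne hgP
      omega
    · intro he
      have hn0 : nim P ≠ 0 := fun h => ((outcome P).2.1 h1 he).1 h hZZ
      have hodd : ∀ g, g ∉ P → ¬ Even (insert g P).card := fun g hg => by
        rw [even_insert hg]; exact fun h => h he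
      have hn2 : nim P ≠ 2 := by
        obtain ⟨t, ht⟩ := hG
        have htP : t ∉ P := fun htP => not_ZZ_of_inv ht (mem_cl htP) hZZ
        have h3 : nim (insert t P) = 2 := by
          refine val2inv ht (mem_cl (mem_insert_self t P)) (hD1 t) ?_ (hodd t htP)
          obtain ⟨x, hx1, hx2⟩ := hZZ
          refine ⟨x, ?_⟩
          rw [cl_insert, sup_sup_comm]
          exact hx2 t ht
        have h4 := nim_ne hne htP
        omega
      have hle : nim P ≤ 3 := by
        refine nim_le hne ?_
        intro g hg
        by_cases hD : D2 (cl (insert g P))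
        · by_cases hZ' : Z (cl (insert g P))
          · have := ((outcome (insert g P)).2.2 (hD1 g) (hodd g hg)).2 hZ'
            omega
          · have := ((val2 hG (insert g P) (hD1 g) hD hZ').1 (hodd g hg)).1
            omega
        · have := ((ih g hg hD (hinh g hD)).1 (hodd g hg)).1
          omega
      refine ⟨by omega, fun hE hN => ?_⟩
      have hle1 : nim P ≤ 1 := by
        refine nim_le hne ?_
        intro g hg
        by_cases hD : D2 (cl (insert g P))
        · by_cases hZ' : Z (cl (insert g P))
          · have := ((outcome (insert g P)).2.2 (hD1 g) (hodd g hg)).2 hZ'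
            omega
          · have := ((val2 hG (insert g P) (hD1 g) hD hZ').1 (hodd g hg)).2 hE
            omega
        · have := ((ih g hg hD (hinh g hD)).1 (hodd g hg)).2 hE hN
          omega
      omega

end Pool.Agent.Lib.MP_cb9b3e_co
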